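import Pool.Agent.TH629.ExpAlg

/-!
# Measures of linear independence in finite extensions of `ℚ(t)`
-/

set_option autoImplicit false

namespace Pool.Agent.R473.EC

open Finset Polynomial Module Filter Pool.Agent.W472.AC Pool.Agent.TH629.ExpDig
  Pool.Agent.TH629.ExpAlg

/-- `t` has a transcendence measure of polynomial type in every degree -/
def MeasR (t : ℝ) : Prop :=
  ∀ D : ℕ, ∃ κ c : ℝ, 0 ≤ κ ∧ 0 < c ∧ ∀ P : ℤ[X], P ≠ 0 → P.natDegree ≤ D →
    ∀ H : ℝ, 1 ≤ H → (∀ j, |(P.coeff j : ℝ)| ≤ H) → c ≤ H ^ κ * |aeval t P|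

/-- denominators in `ℚ(t)` -/
lemma den1 (t : ℝ) (x : ℝ) (hx : x ∈ IntermediateField.adjoin ℚ ({t} : Set ℝ)) :
    ∃ g z : ℤ[X], aeval t g ≠ 0 ∧ aeval t g * x = aeval t z := by
  induction hx using IntermediateField.adjoin_induction with
  | mem x hx =>
    rw [Set.mem_singleton_iff] at hx
    subst hx
    exact ⟨1, X, by simp, by simp⟩
  | algebraMap q =>
    refine ⟨C (q.den : ℤ), C q.num, ?_, ?_⟩
    · rw [aeval_C]
      simp
    · rw [aeval_C, aeval_C]
      have h := Rat.den_mul_eq_num q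
      have h2 : ((q.den : ℚ) : ℝ) * (q : ℝ) = ((q.num : ℚ) : ℝ) := by exact_mod_cast h
      simpa using h2
  | add x y _ _ hx hy =>
    obtain ⟨g, z, hg, h⟩ := hx
    obtain ⟨g', z', hg', h'⟩ := hy
    refine ⟨g * g', z * g' + z' * g, ?_, ?_⟩
    · rw [map_mul]; exact mul_ne_zero hg hg'
    · rw [map_mul, map_add, map_mul, map_mul, ← h, ← h']
      ring
  | inv x _ hx =>
    obtain ⟨g, z, hg, h⟩ := hx
    by_cases hx0 : x = 0
    · subst hx0
      exact ⟨1, 0, by simp, by simp⟩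
    · refine ⟨z, g, ?_, ?_⟩
      · rw [← h]; exact mul_ne_zero hg hx0
      · rw [← h]; field_simp
  | mul x y _ _ hx hy =>
    obtain ⟨g, z, hg, h⟩ := hx
    obtain ⟨g', z', hg', h'⟩ := hy
    refine ⟨g * g', z * z', ?_, ?_⟩
    · rw [map_mul]; exact mul_ne_zero hg hg'
    · rw [map_mul, map_mul, ← h, ← h']
      ring

/-- common denominators in `ℚ(t)` -/
lemma common_den_t (t : ℝ) {ι : Type*} [Fintype ι]
    (f : ι → IntermediateField.adjoin ℚ ({t} : Set ℝ)) :
    ∃ g : ℤ[X], aeval t g ≠ 0 ∧ ∃ z : ι → ℤ[X], ∀ i, aeval t (z i) = aeval t g * (f i : ℝ) := by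
  classical
  choose g z hg hz using fun i => den1 t (f i : ℝ) (f i).2
  refine ⟨∏ i, g i, ?_, fun i => z i * ∏ j ∈ univ.erase i, g j, fun i => ?_⟩
  · rw [map_prod]
    exact Finset.prod_ne_zero_iff.2 fun i _ => hg i
  · rw [map_mul, ← hz i, ← Finset.mul_prod_erase univ g (mem_univ i), map_mul]
    ring

/-- **Measure of linear independence** of numbers algebraic over `ℚ(t)`. -/
theorem meas_alg (t : ℝ) (ht : MeasR t) {m : ℕ} (y : Fin (m + 1) → ℝ)
    (hy : ∀ j, IsAlgebraic (IntermediateField.adjoin ℚ ({t} : Set ℝ)) (y j))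
    (hli : LinearIndependent ℚ y) :
    ∃ w c : ℝ, 0 ≤ w ∧ 0 < c ∧ Meas y w c := by
  classical
  obtain ⟨F, hF⟩ : ∃ F : IntermediateField ℚ ℝ, F = IntermediateField.adjoin ℚ ({t} : Set ℝ) :=
    ⟨_, rfl⟩
  have hden : ∀ {ι : Type} [Fintype ι] (f : ι → F), ∃ g : ℤ[X], aeval t g ≠ 0 ∧
      ∃ z : ι → ℤ[X], ∀ i, aeval t (z i) = aeval t g * (f i : ℝ) := by
    subst hF
    intro ι _ f
    exact common_den_t t f
  rw [← hF] at hy
  obtain ⟨L, hL⟩ : ∃ L : IntermediateField F ℝ, L = IntermediateField.adjoin F (Set.range y) :=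
    ⟨_, rfl⟩
  have hfd : FiniteDimensional F L := by
    rw [hL]
    exact IntermediateField.finiteDimensional_adjoin (fun x hx => by
      obtain ⟨j, rfl⟩ := hx
      exact (hy j).isIntegral)
  have hyL : ∀ j, y j ∈ L := fun j => by
    rw [hL]
    exact IntermediateField.subset_adjoin _ _ ⟨j, rfl⟩
  obtain ⟨β, hβ⟩ : ∃ β : Fin (m + 1) → L, β = fun j => ⟨y j, hyL j⟩ := ⟨_, rfl⟩
  have hβy : ∀ j, ((β j : L) : ℝ) = y j := fun j => by rw [hβ]
  obtain ⟨d, hd⟩ : ∃ d, d = finrank F L := ⟨_, rfl⟩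
  have hdpos : 0 < d := by rw [hd]; exact finrank_pos
  obtain ⟨b⟩ : Nonempty (Basis (Fin d) F L) := ⟨Module.finBasisOfFinrankEq F L hd.symm⟩
  obtain ⟨g, hg, z, hz⟩ := hden
    (fun p : Fin (m + 1) × Fin d × Fin d => Algebra.leftMulMatrix b (β p.1) p.2.1 p.2.2)
  obtain ⟨G, hG⟩ : ∃ G : ℝ, G = aeval t g := ⟨_, rfl⟩
  rw [← hG] at hg hz
  obtain ⟨R, hR⟩ : ∃ R : ℕ, R = ∑ p, (z p).natDegree := ⟨_, rfl⟩
  have hzR : ∀ p, (z p).natDegree < R + 1 := by
    intro p
    have := Finset.single_le_sum (f := fun p => (z p).natDegree) (fun _ _ => Nat.zero_le _)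
      (mem_univ p)
    have h2 : (z p).natDegree ≤ R := by rw [hR]; exact this
    omega
  -- the index set of the integer matrices
  obtain ⟨m', hm'⟩ : ∃ m' : ℕ, m' + 1 = (m + 1) * (R + 1) := by
    have : 0 < (m + 1) * (R + 1) := by positivity
    exact ⟨(m + 1) * (R + 1) - 1, by omega⟩
  let σ : Fin (m + 1) × Fin (R + 1) ≃ Fin (m' + 1) := finProdFinEquiv.trans (finCongr hm'.symm)
  obtain ⟨S, hS1, hdet⟩ := det_poly (fun k => (((σ.symm k).2 : Fin (R + 1)) : ℕ)) R
    (fun k => by have := ((σ.symm k).2 : Fin (R + 1)).2; omega)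
    (fun k => (Matrix.of fun r c => (z ((σ.symm k).1, r, c)).coeff ((σ.symm k).2 : Fin (R + 1)) :
      Matrix (Fin d) (Fin d) ℤ))
  obtain ⟨v, hv⟩ : ∃ v : Fin d → ℝ, v = fun i => ((b i : L) : ℝ) := ⟨_, rfl⟩
  have hv0 : ∀ i, v i ≠ 0 := by
    intro i h
    rw [hv] at h
    have h2 : ((b i : L) : ℝ) = 0 := h
    have h1 : b i = 0 := by exact_mod_cast h2
    exact b.ne_zero i h1
  -- the matrices at `t`
  obtain ⟨A, hA⟩ : ∃ A : Fin (m + 1) → Fin d → Fin d → ℝ, A = fun j r c => aeval t (z (j, r, c)) :=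
    ⟨_, rfl⟩
  have hAl : ∀ j r c, A j r c = G * ((Algebra.leftMulMatrix b (β j) r c : F) : ℝ) := by
    intro j r c
    rw [hA]
    exact hz (j, r, c)
  have heig : ∀ j l, ∑ i, v i * A j i l = G * y j * v l := by
    intro j l
    have h1 : β j * b l = ∑ i, Algebra.leftMulMatrix b (β j) i l • b i := by
      rw [← b.sum_repr (β j * b l)]
      refine Finset.sum_congr rfl fun i _ => ?_
      rw [Algebra.leftMulMatrix_eq_repr_mul]
    have h2 : y j * ((b l : L) : ℝ) =
        ∑ i, ((Algebra.leftMulMatrix b (β j) i l : F) : ℝ) * ((b i : L) : ℝ) := by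
      have h3 := congrArg (fun u : L => (u : ℝ)) h1
      simp only [MulMemClass.coe_mul, AddSubmonoidClass.coe_finsetSum] at h3
      rw [hβy] at h3
      rw [h3]
      refine Finset.sum_congr rfl fun i _ => ?_
      rfl
    rw [hv]
    simp only []
    rw [mul_assoc, h2, Finset.mul_sum]
    refine Finset.sum_congr rfl fun i _ => ?_
    rw [hAl]
    ring
  obtain ⟨S', hS'⟩ : ∃ S' : ℝ, S' = 1 + ∑ j, ∑ r, ∑ c, |A j r c| := ⟨_, rfl⟩
  have hS'1 : 1 ≤ S' := by
    rw [hS']
    have : 0 ≤ ∑ j, ∑ r, ∑ c, |A j r c| :=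
      Finset.sum_nonneg fun _ _ => Finset.sum_nonneg fun _ _ => Finset.sum_nonneg fun _ _ =>
        abs_nonneg _
    linarith
  obtain ⟨V, hV⟩ : ∃ V : ℝ, V = 1 + ∑ i, |v i| := ⟨_, rfl⟩
  have hV1 : 1 ≤ V := by
    have : 0 ≤ ∑ i, |v i| := Finset.sum_nonneg fun _ _ => abs_nonneg _
    linarith
  obtain ⟨κ, c, hκ, hc, hmeas⟩ := ht (d * R)
  obtain ⟨l⟩ : Nonempty (Fin d) := ⟨⟨0, hdpos⟩⟩
  obtain ⟨Cc, hC⟩ : ∃ Cc : ℝ, Cc = S ^ κ * (|G| * ((d.factorial : ℝ) * (V * S' ^ (d - 1)))) :=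
    ⟨_, rfl⟩
  have hG0 : 0 < |G| := abs_pos.2 hg
  have hCpos : 0 < Cc := by
    rw [hC]
    have h2 : 0 < S := by linarith
    have h3 : 0 < S' := by linarith
    have h4 : 0 < V := by linarith
    positivity
  have hvl : 0 < |v l| := abs_pos.2 (hv0 l)
  refine ⟨d * κ + (d - 1 : ℕ), c * |v l| / Cc, by positivity, by positivity,
    fun a ha H hH haH => ?_⟩
  obtain ⟨N, hN1, hN2⟩ := hdet (fun k => a (σ.symm k).1)
  obtain ⟨Λ, hΛ⟩ : ∃ Λ : ℝ, Λ = ∑ j, (a j : ℝ) * y j := ⟨_, rfl⟩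
  have hΛ0 : Λ ≠ 0 := by
    intro h0
    apply ha
    have h1 := Fintype.linearIndependent_iff.1 hli (fun j => (a j : ℚ)) (by
      rw [← h0, hΛ]
      refine Finset.sum_congr rfl fun j _ => ?_
      rw [Rat.smul_def]
      simp)
    ext j
    have := h1 j
    exact_mod_cast this
  obtain ⟨M, hM⟩ : ∃ M : Matrix (Fin d) (Fin d) ℝ, M = Matrix.of fun r c =>
    ∑ j, (a j : ℝ) * A j r c := ⟨_, rfl⟩
  -- the determinant as a polynomial in `t`
  have hMdet : M.det = aeval t (pol N) := by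
    have h1 := hN2 ℝ t
    have h2 : (Matrix.of fun r c => ∑ k : Fin (m' + 1), (((a (σ.symm k).1 : ℤ) : ℝ) *
        t ^ (((σ.symm k).2 : Fin (R + 1)) : ℕ)) *
        (((Matrix.of fun r c => (z ((σ.symm k).1, r, c)).coeff ((σ.symm k).2 : Fin (R + 1)) :
          Matrix (Fin d) (Fin d) ℤ) r c : ℤ) : ℝ)) = M := by
      rw [hM]
      ext r c
      simp only [Matrix.of_apply]
      rw [← Equiv.sum_comp σ, Fintype.sum_prod_type]
      refine Finset.sum_congr rfl fun j _ => ?_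
      rw [hA]
      simp only [Equiv.symm_apply_apply]
      rw [aeval_eq_sum_range' (hzR (j, r, c)), Finset.mul_sum, Finset.sum_range]
      refine Finset.sum_congr rfl fun i _ => ?_
      rw [zsmul_eq_mul]
      ring
    rw [h2] at h1
    rw [h1]
    unfold pol
    rw [map_sum]
    refine Finset.sum_congr rfl fun k _ => ?_
    simp
  have hrow : ∀ i', ∑ i, v i * M i i' = G * Λ * v i' := by
    intro i'
    rw [hM, hΛ]
    simp only [Matrix.of_apply]
    calc ∑ i, v i * ∑ j, (a j : ℝ) * A j i i'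
        = ∑ j, (a j : ℝ) * ∑ i, v i * A j i i' := by
          simp_rw [Finset.mul_sum]
          rw [Finset.sum_comm]
          refine Finset.sum_congr rfl fun j _ => Finset.sum_congr rfl fun i _ => ?_
          ring
      _ = ∑ j, (a j : ℝ) * (G * y j * v i') := by
          refine Finset.sum_congr rfl fun j _ => ?_
          rw [heig]
      _ = _ := by
          rw [Finset.mul_sum, Finset.sum_mul]
          refine Finset.sum_congr rfl fun j _ => ?_
          ring
  have hkey : v l * M.det = G * Λ * (M.updateRow l v).det := by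
    have h1 := Matrix.det_updateRow_sum M l v
    have h2 : (∑ k, v k • M k) = (G * Λ) • v := by
      ext i'
      simp only [Finset.sum_apply, Pi.smul_apply, smul_eq_mul]
      exact hrow i'
    rw [h2, Matrix.det_updateRow_smul] at h1
    rw [smul_eq_mul] at h1
    exact h1.symm
  have hMb : ∀ r c, |M r c| ≤ H * S' := by
    intro r c
    rw [hM]
    simp only [Matrix.of_apply]
    refine (Finset.abs_sum_le_sum_abs _ _).trans ?_
    have h1 : ∀ j, |(a j : ℝ) * A j r c| ≤ H * |A j r c| := by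
      intro j
      rw [abs_mul]
      exact mul_le_mul_of_nonneg_right (haH j) (abs_nonneg _)
    refine (Finset.sum_le_sum fun j _ => h1 j).trans ?_
    rw [← Finset.mul_sum]
    refine mul_le_mul_of_nonneg_left ?_ (by linarith)
    rw [hS']
    have h2 : ∑ j, |A j r c| ≤ ∑ j, ∑ r, ∑ c, |A j r c| := by
      refine Finset.sum_le_sum fun j _ => ?_
      have h3 : |A j r c| ≤ ∑ c, |A j r c| :=
        Finset.single_le_sum (f := fun c => |A j r c|) (fun _ _ => abs_nonneg _) (mem_univ c)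
      have h4 : ∑ c, |A j r c| ≤ ∑ r, ∑ c, |A j r c| :=
        Finset.single_le_sum (f := fun r => ∑ c, |A j r c|)
          (fun _ _ => Finset.sum_nonneg fun _ _ => abs_nonneg _) (mem_univ r)
      exact h3.trans h4
    linarith
  have hbd : |(M.updateRow l v).det| ≤ (d.factorial : ℝ) * (V * (H * S') ^ (d - 1)) := by
    refine det_bound _ l V (H * S') (fun c => ?_) (fun r c hr => ?_)
    · rw [Matrix.updateRow_self, hV]
      have := Finset.single_le_sum (f := fun i => |v i|) (fun _ _ => abs_nonneg _) (mem_univ c)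
      linarith
    · rw [Matrix.updateRow_ne hr]
      exact hMb r c
  -- the determinant does not vanish
  have hdet0 : M.det ≠ 0 := by
    obtain ⟨γ, hγ⟩ : ∃ γ : L, γ = ∑ j, ((a j : ℤ) : F) • β j := ⟨_, rfl⟩
    have hγΛ : ((γ : L) : ℝ) = Λ := by
      rw [hγ, hΛ]
      rw [AddSubmonoidClass.coe_finsetSum]
      refine Finset.sum_congr rfl fun j _ => ?_
      rw [← hβy j]
      show ((((a j : ℤ) : F) : F) : ℝ) * ((β j : L) : ℝ) = _
      push_cast
      rfl
    have hγ0 : γ ≠ 0 := by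
      intro h0
      apply hΛ0
      rw [← hγΛ, h0]
      rfl
    have h1 : M = G • (Algebra.leftMulMatrix b γ).map (algebraMap F ℝ) := by
      rw [hM, hγ, map_sum]
      ext r c
      simp only [Matrix.of_apply, Matrix.smul_apply, Matrix.map_apply, Matrix.sum_apply,
        map_sum, smul_eq_mul, map_smul]
      rw [Finset.mul_sum]
      refine Finset.sum_congr rfl fun j _ => ?_
      rw [hAl]
      simp only [Matrix.smul_apply, smul_eq_mul, map_mul, map_intCast]
      have : (algebraMap F ℝ) (Algebra.leftMulMatrix b (β j) r c) =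
        ((Algebra.leftMulMatrix b (β j) r c : F) : ℝ) := rfl
      rw [this]
      ring
    rw [h1, Matrix.det_smul]
    refine mul_ne_zero (pow_ne_zero _ hg) ?_
    have h2 : ((Algebra.leftMulMatrix b γ).map (algebraMap F ℝ)).det =
        algebraMap F ℝ (Algebra.leftMulMatrix b γ).det := by
      rw [RingHom.map_det]
      rfl
    rw [h2, ← Algebra.norm_eq_matrix_det]
    intro h3
    rw [map_eq_zero_iff _ (algebraMap F ℝ).injective] at h3
    haveI : Module.Free F L := Module.Free.of_divisionRing F L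
    haveI : Module.Finite F L := hfd
    exact (Algebra.norm_ne_zero_iff.2 hγ0) h3
  have hN0 : pol N ≠ 0 := by
    intro h0
    apply hdet0
    rw [hMdet, h0, map_zero]
  -- conclusion
  have hH0 : 0 < H := by linarith
  have hHS : 1 ≤ H ^ d * S := by
    have : 1 ≤ H ^ d := one_le_pow₀ hH
    nlinarith
  have hSH : ∀ k, |(((pol N).coeff k : ℤ) : ℝ)| ≤ H ^ d * S := by
    intro k
    rw [pol_coeff]
    split_ifs with hk
    · exact hN1 H hH (fun j => haH _) _
    · simp only [Int.cast_zero, abs_zero]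
      linarith
  have h1 := hmeas (pol N) hN0 (pol_natDegree N) (H ^ d * S) hHS hSH
  rw [← hMdet] at h1
  have h2 : |v l| * |M.det| ≤ |G| * |Λ| * ((d.factorial : ℝ) * (V * (H * S') ^ (d - 1))) := by
    rw [← abs_mul, hkey, abs_mul, abs_mul]
    exact mul_le_mul_of_nonneg_left hbd (by positivity)
  have hexpo : (H ^ d) ^ κ * H ^ (d - 1) = H ^ ((d : ℝ) * κ + (d - 1 : ℕ)) := by
    rw [← Real.rpow_natCast H d, ← Real.rpow_mul hH0.le, ← Real.rpow_natCast H (d - 1),
      ← Real.rpow_add hH0]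
  rw [div_le_iff₀ hCpos]
  have hSpos : 0 < S := by linarith
  have hHd : (0 : ℝ) ≤ H ^ d := by positivity
  calc c * |v l| ≤ ((H ^ d * S) ^ κ * |M.det|) * |v l| :=
        mul_le_mul_of_nonneg_right h1 hvl.le
    _ = (H ^ d * S) ^ κ * (|v l| * |M.det|) := by ring
    _ ≤ (H ^ d * S) ^ κ * (|G| * |Λ| * ((d.factorial : ℝ) * (V * (H * S') ^ (d - 1)))) := by
        refine mul_le_mul_of_nonneg_left h2 ?_
        positivity
    _ = ((H ^ d) ^ κ * H ^ (d - 1)) * |Λ| *
          (S ^ κ * (|G| * ((d.factorial : ℝ) * (V * S' ^ (d - 1))))) := by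
        rw [Real.mul_rpow hHd hSpos.le, mul_pow]
        ring
    _ = H ^ ((d : ℝ) * κ + (d - 1 : ℕ)) * |Λ| * Cc := by rw [hexpo, hC]
    _ = H ^ ((d : ℝ) * κ + (d - 1 : ℕ)) * |∑ j, (a j : ℝ) * y j| * Cc := by
        rw [hΛ]

end Pool.Agent.R473.EC
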