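import Pool.Agent.TH629.ExpDig

/-!
# Relations between the digits after a bounded number of changes: analytic part
-/

set_option autoImplicit false

namespace Pool.Agent.R473.EC

open Finset Polynomial Module Filter Pool.Agent.W472.AC Pool.Agent.TH629.ExpDig

/-- **Lower bound with the dependence on the constant of the measure.** -/
theorem core (m p : ℕ) (w : ℝ) (hw : 0 ≤ w) : ∃ A : ℝ, 1 ≤ A ∧
    ∀ (c : ℝ), 0 < c → ∀ y : Fin (m + 1) → ℝ, Meas y w c → ∀ b : ℕ, 2 ≤ b → ∀ L : ℕ,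
      ∀ G : Fin (m + 1) → ℤ[X],
      (∀ j i, |(G j).coeff i| ≤ (((b * (L + 1)) ^ p : ℕ) : ℤ)) →
      (∀ j, |y j - ev (1 / b) (G j)| ≤ (((b * (L + 1)) ^ p : ℕ) : ℝ) * (1 / b) ^ L) →
      ∀ k : ℕ, ∀ h : Fin (m + 1) → ℚ[X], h ≠ 0 → (∀ j, (h j).natDegree ≤ k) →
      X ^ (L + 1) ∣ ∑ j, h j * (G j).map (Int.castRingHom ℚ) →
      (L : ℝ) ≤ A * (k + 1) + 2 * (|Real.log c| / Real.log b) := by
  obtain ⟨κ, hκ⟩ : ∃ κ : ℕ, κ = 2 * (m + 1) := ⟨_, rfl⟩
  obtain ⟨a1, ha1⟩ : ∃ a1 : ℝ, a1 = (1 + w) * (κ * p) + p := ⟨_, rfl⟩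
  obtain ⟨a2, ha2⟩ : ∃ a2 : ℝ, a2 = (1 + w) * (κ * (p + 1)) + p + 1 := ⟨_, rfl⟩
  obtain ⟨a3, ha3⟩ : ∃ a3 : ℝ, a3 = (1 + w) * (κ * Real.log (m + 1)) + (1 + w) * Real.log 2
    + Real.log (m + 1) := ⟨_, rfl⟩
  have hlm : 0 ≤ Real.log ((m : ℝ) + 1) := Real.log_nonneg (by linarith [(Nat.cast_nonneg m : (0 : ℝ) ≤ m)])
  have hl2 : 0 < Real.log 2 := Real.log_pos (by norm_num)
  have ha10 : 0 ≤ a1 := by rw [ha1]; positivity
  have ha21 : 1 ≤ a2 := by
    rw [ha2]
    have : 0 ≤ (1 + w) * (κ * (p + 1)) + p := by positivity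
    linarith
  have ha30 : 0 ≤ a3 := by rw [ha3]; positivity
  obtain ⟨A, hA⟩ : ∃ A : ℝ, A = 4 * (1 + w) + 2 * a1 + 1 + 4 * a2 * Real.log (4 * a2) + 4 * a3 :=
    ⟨_, rfl⟩
  have hla : 0 ≤ Real.log (4 * a2) := Real.log_nonneg (by linarith)
  have hA4 : 4 * (1 + w) ≤ A := by
    rw [hA]
    have : 0 ≤ 4 * a2 * Real.log (4 * a2) := by positivity
    linarith
  refine ⟨A, by nlinarith, ?_⟩
  intro c hc y hy b hb L G hG hyG k h hne hkd hrel
  have hbR : (2 : ℝ) ≤ b := by exact_mod_cast hb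
  have hlb2 : Real.log 2 ≤ Real.log b := Real.log_le_log (by norm_num) hbR
  have hlb : 1 / 2 < Real.log b := by
    have h2 := Real.log_two_gt_d9
    linarith
  have hlb0 : 0 < Real.log b := by linarith
  have hk0 : (0 : ℝ) ≤ k := Nat.cast_nonneg k
  have hq0 : 0 ≤ |Real.log c| / Real.log b := by positivity
  by_cases hKL : k + k + 1 ≤ L
  · have hκδ : (m + 1) * (k + k + 1) ≤ κ * (k + 1) := by
      rw [hκ]
      nlinarith
    have hB1 : 1 ≤ (b * (L + 1)) ^ p := Nat.one_le_pow _ _ (by positivity)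
    have hmain := main_ineq m k k L ((b * (L + 1)) ^ p) κ b hb hB1 y w c
      (((b * (L + 1)) ^ p : ℕ) : ℝ) hy G hG hyG h hne hkd hrel hκδ _ rfl
    have hlog := log_ineq2 m p k k L κ b hb w c hw hc hKL _ rfl hmain
    rw [← ha1, ← ha2] at hlog
    have hkd : ((k + k : ℕ) : ℝ) = 2 * k := by push_cast; ring
    rw [hkd] at hlog
    have hL0 : (0 : ℝ) < (L : ℝ) + 1 := by positivity
    have h1 : (L : ℝ) * Real.log b ≤ (2 * (1 + w) * k + a1) * Real.log b +
        a2 * Real.log (L + 1) + (a3 + |Real.log c|) := by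
      rw [ha3]
      linarith
    have h2 : Real.log ((L : ℝ) + 1) ≤ (L + 1) / (4 * a2) + Real.log (4 * a2) := by
      have h3 := Real.log_le_sub_one_of_pos (show 0 < ((L : ℝ) + 1) / (4 * a2) by positivity)
      rw [Real.log_div hL0.ne' (by positivity)] at h3
      linarith
    have hlogL : 0 ≤ Real.log ((L : ℝ) + 1) := Real.log_nonneg (by linarith)
    have h4 : a2 * Real.log (L + 1) ≤ 2 * a2 * Real.log (L + 1) * Real.log b := by
      have : 0 ≤ a2 * Real.log (L + 1) := by positivity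
      nlinarith
    have h5 : a3 ≤ 2 * a3 * Real.log b := by nlinarith
    have h6 : |Real.log c| = (|Real.log c| / Real.log b) * Real.log b := by
      field_simp
    have h7 : (L : ℝ) * Real.log b ≤ (2 * (1 + w) * k + a1 + 2 * a2 * Real.log (L + 1) + 2 * a3 +
        |Real.log c| / Real.log b) * Real.log b := by
      calc (L : ℝ) * Real.log b ≤ (2 * (1 + w) * k + a1) * Real.log b +
            a2 * Real.log (L + 1) + (a3 + |Real.log c|) := h1
        _ ≤ (2 * (1 + w) * k + a1) * Real.log b + 2 * a2 * Real.log (L + 1) * Real.log b +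
            (2 * a3 * Real.log b + (|Real.log c| / Real.log b) * Real.log b) := by
              rw [← h6]; linarith
        _ = _ := by ring
    have h8 := le_of_mul_le_mul_right h7 hlb0
    have h9 : 2 * a2 * Real.log (L + 1) ≤ (L + 1) / 2 + 2 * a2 * Real.log (4 * a2) := by
      calc 2 * a2 * Real.log (L + 1) ≤ 2 * a2 * ((L + 1) / (4 * a2) + Real.log (4 * a2)) :=
            mul_le_mul_of_nonneg_left h2 (by positivity)
        _ = (L + 1) / 2 + 2 * a2 * Real.log (4 * a2) := by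
            field_simp
            ring
    have h10 : (L : ℝ) ≤ 4 * (1 + w) * k + (2 * a1 + 1 + 4 * a2 * Real.log (4 * a2) + 4 * a3) +
        2 * (|Real.log c| / Real.log b) := by linarith
    have h11 : 4 * (1 + w) * k + (2 * a1 + 1 + 4 * a2 * Real.log (4 * a2) + 4 * a3) ≤
        A * (k + 1) := by
      have h12 : 4 * (1 + w) * k ≤ A * k := mul_le_mul_of_nonneg_right hA4 hk0
      have h13 : 2 * a1 + 1 + 4 * a2 * Real.log (4 * a2) + 4 * a3 ≤ A := by
        rw [hA]; linarith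
      linarith
    linarith
  · push Not at hKL
    have h1 : (L : ℝ) ≤ 2 * k := by
      have : L ≤ 2 * k := by omega
      exact_mod_cast this
    nlinarith

/-- **Measure after a rational shift.** -/
theorem meas_shift {n m : ℕ} (ξ : Fin n → ℝ) (E : Fin (m + 1) → Fin n → ℕ)
    (hE : Function.Injective E) (hdown : ∀ j, ∀ a : Fin n → ℕ, a ≤ E j → ∃ j', E j' = a)
    (p : ℕ) (hp : ∀ j, ∑ i, E j i ≤ p) (w c : ℝ) (hw : 0 ≤ w) (hc : 0 < c)
    (h : Meas (fun j => ∏ i, ξ i ^ E j i) w c) (B : ℕ) (hB : 1 ≤ B) (q : Fin n → ℤ)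
    (hq : ∀ i, |q i| ≤ B) :
    Meas (fun j => ∏ i, (ξ i + q i / B) ^ E j i) w
      (c / ((((m : ℝ) + 1) * 2 ^ p * B ^ p) ^ w * B ^ p)) := by
  classical
  intro a ha H hH haH
  have hB0 : (0 : ℝ) < B := by exact_mod_cast hB
  have hB1 : (1 : ℝ) ≤ B := by exact_mod_cast hB
  obtain ⟨a', ha'⟩ : ∃ a' : Fin (m + 1) → ℤ, a' = fun j => a j * (B : ℤ) ^ (p - ∑ i, E j i) :=
    ⟨_, rfl⟩
  have ha'0 : a' ≠ 0 := by
    intro h0
    apply ha
    ext j
    have h1 := congrFun h0 j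
    rw [ha'] at h1
    simp only [Pi.zero_apply] at h1
    have h2 : (B : ℤ) ^ (p - ∑ i, E j i) ≠ 0 := by positivity
    exact (mul_eq_zero.1 h1).resolve_right h2
  have htri := nonzero_tri (fun i => - q i) E hE a' ha'0
  obtain ⟨e, he⟩ : ∃ e : Fin (m + 1) → ℤ, e = fun j' => (B : ℤ) ^ (∑ i, E j' i) *
    ∑ j, a' j * T (fun i => - q i) (E j) (E j') := ⟨_, rfl⟩
  have he0 : e ≠ 0 := by
    intro h0
    apply htri
    ext j'
    have h1 := congrFun h0 j'
    rw [he] at h1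
    simp only [Pi.zero_apply] at h1 ⊢
    have h2 : (B : ℤ) ^ (∑ i, E j' i) ≠ 0 := by positivity
    exact (mul_eq_zero.1 h1).resolve_left h2
  -- the identity
  have hid : ∑ j', (e j' : ℝ) * ∏ i, ξ i ^ E j' i =
      (B : ℝ) ^ p * ∑ j, (a j : ℝ) * ∏ i, (ξ i + q i / B) ^ E j i := by
    have h1 : ∀ j, (B : ℝ) ^ (∑ i, E j i) * ∏ i, (ξ i + q i / B) ^ E j i =
        ∑ j', (T (fun i => - q i) (E j) (E j') : ℝ) *
          ((B : ℝ) ^ (∑ i, E j' i) * ∏ i, ξ i ^ E j' i) := by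
      intro j
      have h2 := expand_family (fun i => - q i) (fun i => B * ξ i) E hE hdown j
      have h3 : ∏ i, (B * ξ i - ((- q i : ℤ) : ℝ)) ^ (E j i) =
          (B : ℝ) ^ (∑ i, E j i) * ∏ i, (ξ i + q i / B) ^ E j i := by
        rw [← Finset.prod_pow_eq_pow_sum, ← Finset.prod_mul_distrib]
        refine Finset.prod_congr rfl fun i _ => ?_
        rw [← mul_pow]
        congr 1
        push_cast
        field_simp
        ring
      rw [← h3, h2]
      refine Finset.sum_congr rfl fun j' _ => ?_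
      rw [← Finset.prod_pow_eq_pow_sum, ← Finset.prod_mul_distrib]
      congr 1
      refine Finset.prod_congr rfl fun i _ => ?_
      rw [mul_pow]
    have h4 : ∀ j, (B : ℝ) ^ p * ((a j : ℝ) * ∏ i, (ξ i + q i / B) ^ E j i) =
        (a' j : ℝ) * ((B : ℝ) ^ (∑ i, E j i) * ∏ i, (ξ i + q i / B) ^ E j i) := by
      intro j
      rw [ha']
      push_cast
      have h5 : (B : ℝ) ^ p = (B : ℝ) ^ (p - ∑ i, E j i) * (B : ℝ) ^ (∑ i, E j i) := by
        rw [← pow_add]
        congr 1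
        have := hp j
        omega
      rw [h5]
      ring
    rw [Finset.mul_sum, Finset.sum_congr rfl fun j _ => h4 j]
    simp_rw [h1, Finset.mul_sum]
    rw [Finset.sum_comm]
    refine Finset.sum_congr rfl fun j' _ => ?_
    rw [he]
    push_cast
    rw [mul_comm ((B : ℝ) ^ _) (∑ j, _), Finset.sum_mul, Finset.sum_mul]
    refine Finset.sum_congr rfl fun j _ => ?_
    ring
  -- the size
  have hT : ∀ j j', (B : ℝ) ^ (∑ i, E j' i) * |(T (fun i => - q i) (E j) (E j') : ℝ)| ≤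
      2 ^ (∑ i, E j i) * (B : ℝ) ^ (∑ i, E j i) := by
    intro j j'
    by_cases hle : E j' ≤ E j
    · unfold T
      push_cast
      rw [Finset.abs_prod, ← Finset.prod_pow_eq_pow_sum, ← Finset.prod_mul_distrib,
        ← mul_pow, ← Finset.prod_pow_eq_pow_sum]
      refine Finset.prod_le_prod (fun i _ => by positivity) fun i _ => ?_
      rw [abs_mul, abs_pow, neg_neg, abs_of_nonneg (Nat.cast_nonneg _)]
      have h1 : |(q i : ℝ)| ≤ B := by exact_mod_cast hq i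
      have h2 : |(q i : ℝ)| ^ (E j i - E j' i) ≤ (B : ℝ) ^ (E j i - E j' i) :=
        pow_le_pow_left₀ (abs_nonneg _) h1 _
      have h3 : ((Nat.choose (E j i) (E j' i) : ℕ) : ℝ) ≤ 2 ^ E j i := by
        exact_mod_cast Nat.choose_le_two_pow (E j i) (E j' i)
      have h4 : (B : ℝ) ^ (E j' i) * (B : ℝ) ^ (E j i - E j' i) = (B : ℝ) ^ (E j i) := by
        rw [← pow_add]
        congr 1
        have h0 : E j' i ≤ E j i := hle i
        omega
      calc (B : ℝ) ^ (E j' i) * (((Nat.choose (E j i) (E j' i) : ℕ) : ℝ) *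
            |(q i : ℝ)| ^ (E j i - E j' i))
          ≤ (B : ℝ) ^ (E j' i) * (2 ^ E j i * (B : ℝ) ^ (E j i - E j' i)) := by
            gcongr
        _ = 2 ^ E j i * ((B : ℝ) ^ (E j' i) * (B : ℝ) ^ (E j i - E j' i)) := by ring
        _ = (2 * (B : ℝ)) ^ E j i := by rw [h4, mul_pow]
    · rw [T_eq_zero _ _ _ hle]
      simp only [Int.cast_zero, abs_zero, mul_zero]
      positivity
  have heb : ∀ j', |(e j' : ℝ)| ≤ H * (((m : ℝ) + 1) * 2 ^ p * B ^ p) := by
    intro j'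
    rw [he]
    push_cast
    rw [abs_mul, abs_of_nonneg (by positivity : (0 : ℝ) ≤ (B : ℝ) ^ (∑ i, E j' i))]
    calc (B : ℝ) ^ (∑ i, E j' i) * |∑ j, (a' j : ℝ) * (T (fun i => - q i) (E j) (E j') : ℝ)|
        ≤ (B : ℝ) ^ (∑ i, E j' i) * ∑ j, |(a' j : ℝ) * (T (fun i => - q i) (E j) (E j') : ℝ)| :=
          mul_le_mul_of_nonneg_left (Finset.abs_sum_le_sum_abs _ _) (by positivity)
      _ = ∑ j, |(a' j : ℝ)| *
            ((B : ℝ) ^ (∑ i, E j' i) * |(T (fun i => - q i) (E j) (E j') : ℝ)|) := by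
          rw [Finset.mul_sum]
          refine Finset.sum_congr rfl fun j _ => ?_
          rw [abs_mul]
          ring
      _ ≤ ∑ _j : Fin (m + 1), H * (2 ^ p * (B : ℝ) ^ p) := by
          refine Finset.sum_le_sum fun j _ => ?_
          have h1 : |(a' j : ℝ)| ≤ H * (B : ℝ) ^ (p - ∑ i, E j i) := by
            rw [ha']
            push_cast
            rw [abs_mul, abs_of_nonneg (by positivity : (0 : ℝ) ≤ (B : ℝ) ^ (p - ∑ i, E j i))]
            exact mul_le_mul_of_nonneg_right (haH j) (by positivity)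
          have h2 : (2 : ℝ) ^ (∑ i, E j i) ≤ 2 ^ p := pow_le_pow_right₀ (by norm_num) (hp j)
          have h5 : (B : ℝ) ^ p = (B : ℝ) ^ (p - ∑ i, E j i) * (B : ℝ) ^ (∑ i, E j i) := by
            rw [← pow_add]
            congr 1
            have := hp j
            omega
          calc |(a' j : ℝ)| * ((B : ℝ) ^ (∑ i, E j' i) *
                |(T (fun i => - q i) (E j) (E j') : ℝ)|)
              ≤ (H * (B : ℝ) ^ (p - ∑ i, E j i)) * (2 ^ (∑ i, E j i) * (B : ℝ) ^ (∑ i, E j i)) :=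
                mul_le_mul h1 (hT j j') (by positivity) (by positivity)
            _ = H * (2 ^ (∑ i, E j i) * ((B : ℝ) ^ (p - ∑ i, E j i) * (B : ℝ) ^ (∑ i, E j i))) := by
                ring
            _ = H * (2 ^ (∑ i, E j i) * (B : ℝ) ^ p) := by rw [← h5]
            _ ≤ H * (2 ^ p * (B : ℝ) ^ p) := by gcongr
      _ = H * (((m : ℝ) + 1) * 2 ^ p * B ^ p) := by
          rw [Finset.sum_const, Finset.card_univ, Fintype.card_fin, nsmul_eq_mul]
          push_cast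
          ring
  obtain ⟨Q, hQ⟩ : ∃ Q : ℝ, Q = ((m : ℝ) + 1) * 2 ^ p * B ^ p := ⟨_, rfl⟩
  have hQ1 : 1 ≤ Q := by
    rw [hQ]
    have h1 : (1 : ℝ) ≤ (m : ℝ) + 1 := by linarith [(Nat.cast_nonneg m : (0 : ℝ) ≤ m)]
    have h2 : (1 : ℝ) ≤ 2 ^ p := one_le_pow₀ (by norm_num)
    have h3 : (1 : ℝ) ≤ (B : ℝ) ^ p := one_le_pow₀ hB1
    calc (1 : ℝ) = 1 * 1 * 1 := by norm_num
      _ ≤ _ := by gcongr
  rw [← hQ] at heb ⊢
  have hQ0 : 0 < Q := by linarith
  have h1 := h e he0 (H * Q) (by nlinarith) heb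
  rw [hid, Real.mul_rpow (by linarith) hQ0.le, abs_mul,
    abs_of_nonneg (by positivity : (0 : ℝ) ≤ (B : ℝ) ^ p)] at h1
  rw [div_le_iff₀ (by positivity)]
  calc c ≤ H ^ w * Q ^ w * ((B : ℝ) ^ p * |∑ j, (a j : ℝ) * ∏ i, (ξ i + q i / B) ^ E j i|) := h1
    _ = _ := by ring

end Pool.Agent.R473.EC
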