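import Pool.Agent.R473.EC.Core

/-!
# Relations between the digits after a bounded number of changes
-/

set_option autoImplicit false

namespace Pool.Agent.R473.EC

open Finset Polynomial Module Filter Pool.Agent.W472.AC Pool.Agent.TH629.ExpDig

/-- `s 1 X + ⋯ + s L X^L` over the integers -/
noncomputable def sZ (s : ℕ → ℤ) (L : ℕ) : ℤ[X] := ∑ l ∈ Icc 1 L, C (s l) * X ^ l

/-- `s 1 X + ⋯ + s L X^L` over the rational numbers -/
noncomputable def sQ (s : ℕ → ℤ) (L : ℕ) : ℚ[X] := ∑ l ∈ Icc 1 L, C (s l : ℚ) * X ^ l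

lemma sQ_eq (s : ℕ → ℤ) (L : ℕ) : sQ s L = (sZ s L).map (Int.castRingHom ℚ) := by
  unfold sQ sZ
  rw [Polynomial.map_sum]
  refine Finset.sum_congr rfl fun i _ => ?_
  simp

lemma sZ_digit (b : ℕ) (x : ℝ) (L : ℕ) : sZ (digit b x) L = DZ b x L := rfl

lemma sZ_coeff_nonneg (s : ℕ → ℤ) (h : ∀ l, 0 ≤ s l) (L i : ℕ) : 0 ≤ (sZ s L).coeff i := by
  unfold sZ
  rw [finsetSum_coeff]
  refine Finset.sum_nonneg fun l _ => ?_
  rw [coeff_C_mul, coeff_X_pow]
  split_ifs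
  · rw [mul_one]; exact h l
  · rw [mul_zero]

lemma sZ_eval_one (s : ℕ → ℤ) (b : ℕ) (h0 : ∀ l, 0 ≤ s l) (h1 : ∀ l, s l < b) (L : ℕ) :
    0 ≤ (sZ s L).eval 1 ∧ (sZ s L).eval 1 ≤ b * (L + 1) := by
  unfold sZ
  rw [eval_finsetSum]
  simp only [eval_mul, eval_C, eval_pow, eval_X, one_pow, mul_one]
  refine ⟨Finset.sum_nonneg fun l _ => h0 l, ?_⟩
  calc ∑ i ∈ Icc 1 L, s i ≤ ∑ _i ∈ Icc 1 L, (b : ℤ) :=
        Finset.sum_le_sum fun i _ => (h1 i).le
    _ = L * b := by rw [Finset.sum_const, Nat.card_Icc, nsmul_eq_mul]; simp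
    _ ≤ b * (L + 1) := by
        have : (0 : ℤ) ≤ b := Int.natCast_nonneg _
        nlinarith

lemma ev_sZ (s : ℕ → ℤ) (z : ℝ) (L : ℕ) : ev z (sZ s L) = ∑ l ∈ Icc 1 L, (s l : ℝ) * z ^ l := by
  unfold sZ
  rw [ev_sum]
  simp only [ev_C_mul_X_pow]

lemma ev_sZ_bounds (s : ℕ → ℤ) (b : ℕ) (hb : 1 ≤ b) (h0 : ∀ l, 0 ≤ s l) (h1 : ∀ l, s l < b)
    (L : ℕ) : 0 ≤ ev (1 / b) (sZ s L) ∧ ev (1 / b) (sZ s L) ≤ 1 - (1 / b) ^ L := by
  have hb0 : (0 : ℝ) < b := by exact_mod_cast hb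
  rw [ev_sZ]
  constructor
  · refine Finset.sum_nonneg fun l _ => mul_nonneg ?_ (by positivity)
    exact_mod_cast h0 l
  · induction L with
    | zero => simp
    | succ L ih =>
      rw [Finset.sum_Icc_succ_top (by omega)]
      have h2 : (s (L + 1) : ℝ) ≤ b - 1 := by
        have : s (L + 1) ≤ b - 1 := by have := h1 (L + 1); omega
        exact_mod_cast this
      have h3 : (0 : ℝ) ≤ (1 / (b : ℝ)) ^ (L + 1) := by positivity
      have h4 : (s (L + 1) : ℝ) * (1 / (b : ℝ)) ^ (L + 1) ≤ (b - 1) * (1 / (b : ℝ)) ^ (L + 1) :=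
        mul_le_mul_of_nonneg_right h2 h3
      have h5 : ((b : ℝ) - 1) * (1 / (b : ℝ)) ^ (L + 1) = (1 / (b : ℝ)) ^ L -
          (1 / (b : ℝ)) ^ (L + 1) := by
        rw [pow_succ]
        field_simp
      linarith

/-- the difference of two such values -/
lemma ev_diff (s s' : ℕ → ℤ) (b : ℕ) (hb : 1 ≤ b) (t L : ℕ) (htL : t ≤ L)
    (h : ∀ l, t < l → l ≤ L → s l = s' l) :
    ∃ q : ℤ, ev (1 / b) (sZ s L) - ev (1 / b) (sZ s' L) = q / (b : ℝ) ^ t := by
  have hb0 : (b : ℝ) ≠ 0 := by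
    have : (0 : ℝ) < b := by exact_mod_cast hb
    exact this.ne'
  refine ⟨∑ l ∈ Icc 1 t, (s l - s' l) * (b : ℤ) ^ (t - l), ?_⟩
  rw [ev_sZ, ev_sZ, ← Finset.sum_sub_distrib]
  have h1 : ∑ l ∈ Icc 1 L, ((s l : ℝ) * (1 / (b : ℝ)) ^ l - (s' l : ℝ) * (1 / (b : ℝ)) ^ l) =
      ∑ l ∈ Icc 1 t, ((s l : ℝ) * (1 / (b : ℝ)) ^ l - (s' l : ℝ) * (1 / (b : ℝ)) ^ l) := by
    symm
    refine Finset.sum_subset (Finset.Icc_subset_Icc le_rfl htL) ?_
    intro l hl hl'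
    rw [mem_Icc] at hl hl'
    rw [h l (by omega) hl.2, sub_self]
  rw [h1]
  push_cast
  rw [Finset.sum_div]
  refine Finset.sum_congr rfl fun l hl => ?_
  rw [mem_Icc] at hl
  have h2 : (b : ℝ) ^ t = (b : ℝ) ^ (t - l) * (b : ℝ) ^ l := by
    rw [← pow_add]; congr 1; omega
  rw [h2, div_pow, one_pow]
  field_simp

/-- truncation -/
lemma trunc_dvd (s : ℕ → ℤ) (L L' : ℕ) (h : L' ≤ L) : X ^ (L' + 1) ∣ sQ s L - sQ s L' := by
  unfold sQ
  have h1 : ∑ l ∈ Icc 1 L, C (s l : ℚ) * X ^ l - ∑ l ∈ Icc 1 L', C (s l : ℚ) * X ^ l =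
      ∑ l ∈ Icc (L' + 1) L, C (s l : ℚ) * X ^ l := by
    have h2 : Icc 1 L = Icc 1 L' ∪ Icc (L' + 1) L := by
      ext l
      simp only [mem_union, mem_Icc]
      omega
    rw [h2, Finset.sum_union]
    · ring
    · rw [Finset.disjoint_left]
      intro l hl hl'
      rw [mem_Icc] at hl hl'
      omega
  rw [h1]
  refine Finset.dvd_sum fun l hl => ?_
  rw [mem_Icc] at hl
  exact Dvd.dvd.mul_left (pow_dvd_pow _ hl.1) _

/-- a relation with coefficients of degree `≤ k` between the monomials with the exponents `E j` in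
the polynomials of the terms `1, …, L` of the sequences `s i` -/
def SRel {n m : ℕ} (s : Fin n → ℕ → ℤ) (E : Fin (m + 1) → Fin n → ℕ) (L k : ℕ) : Prop :=
  ∃ h : Fin (m + 1) → ℚ[X], h ≠ 0 ∧ (∀ j, (h j).natDegree ≤ k) ∧
    X ^ (L + 1) ∣ ∑ j, h j * ∏ i, sQ (s i) L ^ E j i

lemma SRel.trunc {n m : ℕ} {s : Fin n → ℕ → ℤ} {E : Fin (m + 1) → Fin n → ℕ} {L k : ℕ}
    (h : SRel s E L k) (L' : ℕ) (hL : L' ≤ L) : SRel s E L' k := by
  obtain ⟨h, h0, hd, hX⟩ := h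
  refine ⟨h, h0, hd, ?_⟩
  obtain ⟨I, hI⟩ : ∃ I : Ideal ℚ[X], I = Ideal.span {X ^ (L' + 1)} := ⟨_, rfl⟩
  have key : ∀ p : ℚ[X], X ^ (L' + 1) ∣ p ↔ Ideal.Quotient.mk I p = 0 := by
    intro p
    rw [Ideal.Quotient.eq_zero_iff_mem, hI, Ideal.mem_span_singleton]
  have h1 : ∀ i, Ideal.Quotient.mk I (sQ (s i) L) = Ideal.Quotient.mk I (sQ (s i) L') := by
    intro i
    have h2 := (key _).1 (trunc_dvd (s i) L L' hL)
    rw [map_sub, sub_eq_zero] at h2
    exact h2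
  have h3 : Ideal.Quotient.mk I (∑ j, h j * ∏ i, sQ (s i) L ^ E j i) = 0 :=
    (key _).1 (dvd_trans (pow_dvd_pow _ (by omega)) hX)
  rw [key]
  rw [← h3]
  simp only [map_sum, map_mul, map_prod, map_pow, h1]

/-- **The main estimate**: all the changes are among the first `t` digits. -/
theorem last_change {n m : ℕ} (x : Fin n → ℝ) (E : Fin (m + 1) → Fin n → ℕ)
    (hE : Function.Injective E) (hdown : ∀ j, ∀ a : Fin n → ℕ, a ≤ E j → ∃ j', E j' = a)
    (w c : ℝ) (hw : 0 ≤ w) (hc : 0 < c) (hx : Meas (fun j => ∏ i, Int.fract (x i) ^ E j i) w c) :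
    ∃ A : ℝ, 1 ≤ A ∧ ∀ b : ℕ, 2 ≤ b → ∀ L k t : ℕ, t ≤ L → ∀ s : Fin n → ℕ → ℤ,
      (∀ i l, 0 ≤ s i l ∧ s i l < b) → (∀ i l, t < l → l ≤ L → s i l = digit b (x i) l) →
      SRel s E L k → (L : ℝ) ≤ A * (k + 1 + t) := by
  classical
  obtain ⟨p, hp⟩ : ∃ p : ℕ, p = ∑ j, ∑ i, E j i := ⟨_, rfl⟩
  have hEp : ∀ j, ∑ i, E j i ≤ p := fun j => by
    rw [hp]
    exact Finset.single_le_sum (f := fun j => ∑ i, E j i) (fun _ _ => Nat.zero_le _)
      (Finset.mem_univ j)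
  obtain ⟨A₀, hA₀, hcore⟩ := core m p w hw
  obtain ⟨Q, hQ⟩ : ∃ Q : ℝ, Q = ((m : ℝ) + 1) * 2 ^ p := ⟨_, rfl⟩
  have hQ1 : 1 ≤ Q := by
    rw [hQ]
    have h1 : (1 : ℝ) ≤ (m : ℝ) + 1 := by linarith [(Nat.cast_nonneg m : (0 : ℝ) ≤ m)]
    have h2 : (1 : ℝ) ≤ 2 ^ p := one_le_pow₀ (by norm_num)
    nlinarith
  have hQ0 : 0 < Q := by linarith
  have hlQ : 0 ≤ Real.log Q := Real.log_nonneg hQ1
  obtain ⟨A₁, hA₁⟩ : ∃ A₁ : ℝ, A₁ = 4 * |Real.log c| + 4 * (w * Real.log Q) := ⟨_, rfl⟩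
  have hA₁0 : 0 ≤ A₁ := by rw [hA₁]; positivity
  obtain ⟨A₂, hA₂⟩ : ∃ A₂ : ℝ, A₂ = 2 * ((1 + w) * p) := ⟨_, rfl⟩
  have hA₂0 : 0 ≤ A₂ := by rw [hA₂]; positivity
  refine ⟨A₀ + A₁ + A₂, by linarith, ?_⟩
  intro b hb L k t htL s hs hst hrel
  obtain ⟨h, hh0, hhk, hX⟩ := hrel
  have hb1 : 1 ≤ b := by omega
  have hbR : (1 : ℝ) ≤ b := by exact_mod_cast hb1
  have hb2 : (2 : ℝ) ≤ b := by exact_mod_cast hb
  have hlb : 1 / 2 < Real.log b := by
    have h1 := Real.log_le_log (by norm_num) hb2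
    have h2 := Real.log_two_gt_d9
    linarith
  have hlb0 : 0 < Real.log b := by linarith
  have hz : (0 : ℝ) ≤ (1 / (b : ℝ)) ^ L := by positivity
  have hbL1 : 1 ≤ b * (L + 1) := Nat.mul_pos (by omega) (by omega)
  -- the shifts
  have hq' : ∀ i, ∃ q : ℤ, ev (1 / b) (sZ (s i) L) - ev (1 / b) (DZ b (x i) L) =
      q / (b : ℝ) ^ t := fun i => by
    rw [← sZ_digit]
    exact ev_diff (s i) (digit b (x i)) b hb1 t L htL (hst i)
  choose q hq using hq'
  have hdig : ∀ i l, 0 ≤ digit b (x i) l ∧ digit b (x i) l < b := fun i l =>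
    ⟨digit_nonneg _ _ hb1 _, by
      unfold digit
      exact Int.emod_lt_of_pos _ (by exact_mod_cast hb1)⟩
  have hev1 : ∀ i, 0 ≤ ev (1 / (b : ℝ)) (sZ (s i) L) ∧
      ev (1 / (b : ℝ)) (sZ (s i) L) ≤ 1 - (1 / b) ^ L := fun i =>
    ev_sZ_bounds (s i) b hb1 (fun l => (hs i l).1) (fun l => (hs i l).2) L
  have hev2 : ∀ i, 0 ≤ ev (1 / (b : ℝ)) (DZ b (x i) L) ∧
      ev (1 / (b : ℝ)) (DZ b (x i) L) ≤ 1 - (1 / b) ^ L := fun i => by
    rw [← sZ_digit]
    exact ev_sZ_bounds _ b hb1 (fun l => (hdig i l).1) (fun l => (hdig i l).2) L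
  have hbt : (0 : ℝ) < (b : ℝ) ^ t := by positivity
  have hqb : ∀ i, |q i| ≤ ((b ^ t : ℕ) : ℤ) := by
    intro i
    have h1 : |(q i : ℝ) / (b : ℝ) ^ t| ≤ 1 := by
      rw [← hq i, abs_le]
      constructor <;> linarith [(hev1 i).1, (hev1 i).2, (hev2 i).1, (hev2 i).2]
    rw [abs_div, abs_of_pos hbt, div_le_one hbt] at h1
    have h2 : ((|q i| : ℤ) : ℝ) ≤ ((b ^ t : ℕ) : ℝ) := by push_cast; exact h1
    exact_mod_cast h2
  obtain ⟨c', hc'⟩ : ∃ c' : ℝ, c' = c / ((((m : ℝ) + 1) * 2 ^ p * ((b ^ t : ℕ) : ℝ) ^ p) ^ w *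
    ((b ^ t : ℕ) : ℝ) ^ p) := ⟨_, rfl⟩
  have hB0 : (0 : ℝ) < ((b ^ t : ℕ) : ℝ) := by push_cast; exact hbt
  have hc'0 : 0 < c' := by rw [hc']; positivity
  have hmeas := meas_shift (fun i => Int.fract (x i)) E hE hdown p hEp w c hw hc hx (b ^ t)
    (Nat.one_le_pow _ _ (by omega)) q hqb
  rw [← hc'] at hmeas
  have hmain := hcore c' hc'0 _ hmeas b hb L (fun j => ∏ i, (sZ (s i) L) ^ E j i)
    (fun j l => by
      have h0 := prod_coeff_nonneg (fun i => sZ (s i) L)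
        (fun i => sZ_coeff_nonneg (s i) (fun l => (hs i l).1) L) (E j) Finset.univ
      rw [abs_of_nonneg (h0 l)]
      refine (coeff_le_eval_one _ h0 l).trans ?_
      rw [eval_prod]
      have h1 : (((b * (L + 1)) ^ p : ℕ) : ℤ) = ((b : ℤ) * (L + 1)) ^ p := by push_cast; ring
      have h2 : (1 : ℤ) ≤ (b : ℤ) * (L + 1) := by exact_mod_cast hbL1
      have h3 : ∀ i, 0 ≤ (sZ (s i) L).eval 1 ∧ (sZ (s i) L).eval 1 ≤ b * (L + 1) := fun i =>
        sZ_eval_one (s i) b (fun l => (hs i l).1) (fun l => (hs i l).2) L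
      calc ∏ i, eval 1 (sZ (s i) L ^ E j i) ≤ ∏ i, ((b : ℤ) * (L + 1)) ^ E j i := by
            refine Finset.prod_le_prod (fun i _ => ?_) fun i _ => ?_
            · rw [eval_pow]; exact pow_nonneg (h3 i).1 _
            · rw [eval_pow]
              exact pow_le_pow_left₀ (h3 i).1 (h3 i).2 _
        _ = ((b : ℤ) * (L + 1)) ^ ∑ i, E j i := by rw [Finset.prod_pow_eq_pow_sum]
        _ ≤ ((b : ℤ) * (L + 1)) ^ p := pow_le_pow_right₀ h2 (hEp j)
        _ = _ := h1.symm)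
    (fun j => by
      have hev : ev (1 / (b : ℝ)) (∏ i, (sZ (s i) L) ^ E j i) =
          ∏ i, (ev (1 / (b : ℝ)) (sZ (s i) L)) ^ E j i := by
        unfold ev
        rw [Polynomial.map_prod, eval_prod]
        refine Finset.prod_congr rfl fun i _ => ?_
        rw [Polynomial.map_pow, eval_pow]
      have hkey : ∀ i, Int.fract (x i) + (q i : ℝ) / ((b ^ t : ℕ) : ℝ) -
          ev (1 / (b : ℝ)) (sZ (s i) L) = Int.fract (x i) - ev (1 / (b : ℝ)) (DZ b (x i) L) := by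
        intro i
        have h1 := hq i
        push_cast
        linarith
      have hcl := fun i => ev_DZ_close (x i) b hb1 L
      rw [hev]
      refine (prod_pow_sub_le _ _ (fun i => ?_) (fun i => ?_) (fun i => (hev1 i).1)
        (fun i => ?_) (E j) Finset.univ).trans ?_
      · have h1 := hkey i
        have h2 := (hcl i).1
        have h3 := (hev1 i).1
        linarith
      · have h1 := hkey i
        have h2 := (hcl i).2
        have h3 := (hev1 i).2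
        linarith
      · have h3 := (hev1 i).2
        linarith
      · calc ∑ i, (E j i : ℝ) * |Int.fract (x i) + (q i : ℝ) / ((b ^ t : ℕ) : ℝ) -
              ev (1 / (b : ℝ)) (sZ (s i) L)|
            ≤ ∑ i, (E j i : ℝ) * (1 / (b : ℝ)) ^ L := by
              refine Finset.sum_le_sum fun i _ => ?_
              refine mul_le_mul_of_nonneg_left ?_ (Nat.cast_nonneg _)
              rw [hkey i, abs_of_nonneg (hcl i).1]
              exact (hcl i).2
          _ = ((∑ i, E j i : ℕ) : ℝ) * (1 / (b : ℝ)) ^ L := by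
              rw [← Finset.sum_mul]; push_cast; ring
          _ ≤ (((b * (L + 1)) ^ p : ℕ) : ℝ) * (1 / (b : ℝ)) ^ L := by
              refine mul_le_mul_of_nonneg_right ?_ hz
              have e2 : p < 2 ^ p := Nat.lt_two_pow_self
              have e3 : 2 ^ p ≤ (b * (L + 1)) ^ p := Nat.pow_le_pow_left (by nlinarith) p
              have e4 := hEp j
              exact_mod_cast (by omega : ∑ i, E j i ≤ (b * (L + 1)) ^ p))
    k h hh0 hhk (by
      have e : ∑ j, h j * (∏ i, (sZ (s i) L) ^ E j i).map (Int.castRingHom ℚ) =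
          ∑ j, h j * ∏ i, sQ (s i) L ^ E j i := by
        refine Finset.sum_congr rfl fun j _ => ?_
        rw [Polynomial.map_prod]
        congr 1
        refine Finset.prod_congr rfl fun i _ => ?_
        rw [Polynomial.map_pow, sQ_eq]
      rw [e]; exact hX)
  -- the logarithm of `c'`
  have hlog : |Real.log c'| ≤ |Real.log c| + w * Real.log Q + (1 + w) * p * t * Real.log b := by
    have hcast : ((b ^ t : ℕ) : ℝ) = (b : ℝ) ^ t := by push_cast; ring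
    have h1 : Real.log c' = Real.log c - (w * Real.log Q + (1 + w) * p * t * Real.log b) := by
      rw [hc', ← hQ, Real.log_div hc.ne' (by positivity),
        Real.log_mul (by positivity) (by positivity), Real.log_rpow (by positivity),
        Real.log_mul (by positivity) (by positivity), Real.log_pow, hcast, Real.log_pow]
      ring
    rw [h1]
    have h2 : 0 ≤ w * Real.log Q + (1 + w) * p * t * Real.log b := by positivity
    calc |Real.log c - (w * Real.log Q + (1 + w) * p * t * Real.log b)|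
        ≤ |Real.log c| + |w * Real.log Q + (1 + w) * p * t * Real.log b| := abs_sub _ _
      _ = _ := by rw [abs_of_nonneg h2]; ring
  have h3 : |Real.log c'| / Real.log b ≤ 2 * |Real.log c| + 2 * (w * Real.log Q) +
      (1 + w) * p * t := by
    rw [div_le_iff₀ hlb0]
    have h4 : |Real.log c| ≤ 2 * |Real.log c| * Real.log b := by
      nlinarith [abs_nonneg (Real.log c)]
    have h5 : w * Real.log Q ≤ 2 * (w * Real.log Q) * Real.log b := by
      have : 0 ≤ w * Real.log Q := by positivity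
      nlinarith
    linarith
  have hk0 : (0 : ℝ) ≤ k := Nat.cast_nonneg k
  have ht0 : (0 : ℝ) ≤ t := Nat.cast_nonneg t
  calc (L : ℝ) ≤ A₀ * (k + 1) + 2 * (|Real.log c'| / Real.log b) := hmain
    _ ≤ A₀ * (k + 1) + 2 * (2 * |Real.log c| + 2 * (w * Real.log Q) + (1 + w) * p * t) := by
        linarith
    _ = A₀ * (k + 1) + A₁ + A₂ * t := by rw [hA₁, hA₂]; ring
    _ ≤ (A₀ + A₁ + A₂) * (k + 1 + t) := by nlinarith [mul_nonneg hA₁0 hk0, mul_nonneg hA₁0 ht0, mul_nonneg hA₂0 hk0, mul_nonneg (by linarith : (0:ℝ) ≤ A₀) ht0]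

/-- **Bounded number of changes.** -/
theorem errors {n m : ℕ} (x : Fin n → ℝ) (E : Fin (m + 1) → Fin n → ℕ)
    (hE : Function.Injective E) (hdown : ∀ j, ∀ a : Fin n → ℕ, a ≤ E j → ∃ j', E j' = a)
    (w c : ℝ) (hw : 0 ≤ w) (hc : 0 < c) (hx : Meas (fun j => ∏ i, Int.fract (x i) ^ E j i) w c) :
    ∃ A : ℝ, 1 ≤ A ∧ ∀ b : ℕ, 2 ≤ b → ∀ K L k : ℕ, ∀ s : Fin n → ℕ → ℤ,
      (∀ i l, 0 ≤ s i l ∧ s i l < b) →
      {l : ℕ | 1 ≤ l ∧ l ≤ L ∧ ∃ i, s i l ≠ digit b (x i) l}.ncard ≤ K →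
      SRel s E L k → (L : ℝ) ≤ A ^ (K + 1) * (k + 1) := by
  classical
  obtain ⟨A, hA, hmain⟩ := last_change x E hE hdown w c hw hc hx
  refine ⟨3 * A, by linarith, fun b hb K => ?_⟩
  have hfin : ∀ (s : Fin n → ℕ → ℤ) (L : ℕ),
      {l : ℕ | 1 ≤ l ∧ l ≤ L ∧ ∃ i, s i l ≠ digit b (x i) l}.Finite := by
    intro s L
    refine (Set.finite_Icc 1 L).subset ?_
    rintro l ⟨h1, h2, _⟩
    exact ⟨h1, h2⟩
  -- without changes
  have hzero : ∀ (L k : ℕ) (s : Fin n → ℕ → ℤ), (∀ i l, 0 ≤ s i l ∧ s i l < b) →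
      {l : ℕ | 1 ≤ l ∧ l ≤ L ∧ ∃ i, s i l ≠ digit b (x i) l} = ∅ →
      SRel s E L k → (L : ℝ) ≤ A * (k + 1) := by
    intro L k s hs hno hrel
    have h1 := hmain b hb L k 0 (Nat.zero_le _) s hs (fun i l hl hl' => by
      by_contra hne
      have : l ∈ {l : ℕ | 1 ≤ l ∧ l ≤ L ∧ ∃ i, s i l ≠ digit b (x i) l} := ⟨hl, hl', i, hne⟩
      rw [hno] at this
      exact this) hrel
    simpa using h1
  induction K with
  | zero =>
    intro L k s hs hcard hrel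
    have h0 := (Set.ncard_eq_zero (hfin s L)).1 (Nat.le_zero.1 hcard)
    have h1 := hzero L k s hs h0 hrel
    have hk0 : (0 : ℝ) ≤ k := Nat.cast_nonneg k
    rw [zero_add, pow_one]
    nlinarith
  | succ K ih =>
    intro L k s hs hcard hrel
    have hk0 : (0 : ℝ) ≤ k := Nat.cast_nonneg k
    have hA3 : (1 : ℝ) ≤ 3 * A := by linarith
    have hpow : (1 : ℝ) ≤ (3 * A) ^ (K + 1) := one_le_pow₀ hA3
    rcases Set.eq_empty_or_nonempty {l : ℕ | 1 ≤ l ∧ l ≤ L ∧ ∃ i, s i l ≠ digit b (x i) l}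
      with h0 | hne
    · have h1 := hzero L k s hs h0 hrel
      have h2 : A * ((k : ℝ) + 1) ≤ (3 * A) ^ (K + 1 + 1) * (k + 1) := by
        refine mul_le_mul_of_nonneg_right ?_ (by linarith)
        rw [pow_succ]
        nlinarith
      linarith
    · obtain ⟨t, ht, hmax⟩ := Set.exists_max_image _ id (hfin s L) hne
      obtain ⟨ht1, htL, hti⟩ := ht
      -- the truncation
      have h1 : {l : ℕ | 1 ≤ l ∧ l ≤ t - 1 ∧ ∃ i, s i l ≠ digit b (x i) l} ⊂
          {l : ℕ | 1 ≤ l ∧ l ≤ L ∧ ∃ i, s i l ≠ digit b (x i) l} := by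
        rw [Set.ssubset_iff_of_subset]
        · exact ⟨t, ⟨ht1, htL, hti⟩, fun h => by
            have := h.2.1
            omega⟩
        · rintro l ⟨a1, a2, a3⟩
          exact ⟨a1, by omega, a3⟩
      have h2 := Set.ncard_lt_ncard h1 (hfin s L)
      have h3 := ih (t - 1) k s hs (by omega) (hrel.trunc (t - 1) (by omega))
      have h4 := hmain b hb L k t htL s hs (fun i l hl hl' => by
        by_contra hne'
        have h5 := hmax l ⟨by omega, hl', i, hne'⟩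
        simp only [id] at h5
        omega) hrel
      have h5 : (t : ℝ) = ((t - 1 : ℕ) : ℝ) + 1 := by
        rw [Nat.cast_sub ht1]
        push_cast
        ring
      have h6 : (k : ℝ) + 1 + t ≤ 3 * ((3 * A) ^ (K + 1) * (k + 1)) := by
        have h7 : (k : ℝ) + 1 ≤ (3 * A) ^ (K + 1) * (k + 1) := by nlinarith
        linarith
      calc (L : ℝ) ≤ A * (k + 1 + t) := h4
        _ ≤ A * (3 * ((3 * A) ^ (K + 1) * (k + 1))) :=
            mul_le_mul_of_nonneg_left h6 (by linarith)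
        _ = (3 * A) ^ (K + 1 + 1) * (k + 1) := by ring

end Pool.Agent.R473.EC
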