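import Pool.Agent.R473.EC.Main
import Pool.Agent.W472.AC.EMeas2

/-!
# The number `e`
-/

set_option autoImplicit false

namespace Pool.Agent.R473.EC

open Polynomial

theorem measR_e : MeasR (Real.exp 1) := by
  intro D
  obtain ⟨c, hc, h⟩ := Pool.Agent.W472.AC.e_measP D 1 one_pos
  exact ⟨D + 1, c, by positivity, hc, h⟩

end Pool.Agent.R473.EC
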