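import Pool.Agent.R473.EC.Err
import Pool.Agent.R473.EC.AlgMeas

/-!
# Digits of numbers algebraic over `ℚ(t)` after a bounded number of changes
-/

set_option autoImplicit false

namespace Pool.Agent.R473.EC

open Finset Polynomial Module Filter Pool.Agent.W472.AC Pool.Agent.TH629.ExpDig

/-- from the monomials in the `x i` to the monomials in the fractional parts -/
lemma meas_fract_mon {n m : ℕ} (x : Fin n → ℝ) (E : Fin (m + 1) → Fin n → ℕ)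
    (hE : Function.Injective E) (hdown : ∀ j, ∀ a : Fin n → ℕ, a ≤ E j → ∃ j', E j' = a)
    (w c : ℝ) (hc : 0 < c) (h : Meas (fun j => ∏ i, x i ^ E j i) w c) :
    ∃ c' : ℝ, 0 < c' ∧ Meas (fun j => ∏ i, Int.fract (x i) ^ E j i) w c' := by
  refine meas_transfer _ _ (fun j j' => T (fun i => ⌊x i⌋) (E j) (E j'))
    (fun j => ?_) (fun a ha => nonzero_tri _ E hE a ha) w c hc h
  exact expand_family (fun i => ⌊x i⌋) x E hE hdown j

/-- **Measure version.** -/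
theorem errors_of_meas {n m : ℕ} (x : Fin n → ℝ) (E : Fin (m + 1) → Fin n → ℕ)
    (hdown : ∀ j, ∀ a : Fin n → ℕ, a ≤ E j → ∃ j', E j' = a)
    (hli : LinearIndependent ℚ fun j => ∏ i, x i ^ E j i)
    (w c : ℝ) (hw : 0 ≤ w) (hc : 0 < c) (h : Meas (fun j => ∏ i, x i ^ E j i) w c) :
    ∃ A : ℝ, 1 ≤ A ∧ ∀ b : ℕ, 2 ≤ b → ∀ K L k : ℕ, ∀ s : Fin n → ℕ → ℤ,
      (∀ i l, 0 ≤ s i l ∧ s i l < b) →
      {l : ℕ | 1 ≤ l ∧ l ≤ L ∧ ∃ i, s i l ≠ digit b (x i) l}.ncard ≤ K →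
      SRel s E L k → (L : ℝ) ≤ A ^ (K + 1) * (k + 1) := by
  have hE : Function.Injective E := by
    intro j j' h
    apply hli.injective
    simp only [h]
  obtain ⟨c', hc', h'⟩ := meas_fract_mon x E hE hdown w c hc h
  exact errors x E hE hdown w c' hw hc' h'

/-- **Numbers algebraic over `ℚ(t)`.** -/
theorem errors_alg (t : ℝ) (ht : MeasR t) {n m : ℕ} (x : Fin n → ℝ)
    (hx : ∀ i, IsAlgebraic (IntermediateField.adjoin ℚ ({t} : Set ℝ)) (x i))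
    (E : Fin (m + 1) → Fin n → ℕ)
    (hdown : ∀ j, ∀ a : Fin n → ℕ, a ≤ E j → ∃ j', E j' = a)
    (hli : LinearIndependent ℚ fun j => ∏ i, x i ^ E j i) :
    ∃ A : ℝ, 1 ≤ A ∧ ∀ b : ℕ, 2 ≤ b → ∀ K L k : ℕ, ∀ s : Fin n → ℕ → ℤ,
      (∀ i l, 0 ≤ s i l ∧ s i l < b) →
      {l : ℕ | 1 ≤ l ∧ l ≤ L ∧ ∃ i, s i l ≠ digit b (x i) l}.ncard ≤ K →
      SRel s E L k → (L : ℝ) ≤ A ^ (K + 1) * (k + 1) := by
  obtain ⟨w, c, hw, hc, h⟩ := meas_alg t ht (fun j => ∏ i, x i ^ E j i)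
    (fun j => (IsIntegral.prod _ (fun i _ => (hx i).isIntegral.pow _)).isAlgebraic) hli
  exact errors_of_meas x E hdown hli w c hw hc h

/-- **Real algebraic numbers.** -/
theorem errors_field (K₀ : IntermediateField ℚ ℝ) [FiniteDimensional ℚ K₀] {n m : ℕ} (x : Fin n → ℝ)
    (hx : ∀ i, x i ∈ K₀) (E : Fin (m + 1) → Fin n → ℕ)
    (hdown : ∀ j, ∀ a : Fin n → ℕ, a ≤ E j → ∃ j', E j' = a)
    (hli : LinearIndependent ℚ fun j => ∏ i, x i ^ E j i) :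
    ∃ A : ℝ, 1 ≤ A ∧ ∀ b : ℕ, 2 ≤ b → ∀ K L k : ℕ, ∀ s : Fin n → ℕ → ℤ,
      (∀ i l, 0 ≤ s i l ∧ s i l < b) →
      {l : ℕ | 1 ≤ l ∧ l ≤ L ∧ ∃ i, s i l ≠ digit b (x i) l}.ncard ≤ K →
      SRel s E L k → (L : ℝ) ≤ A ^ (K + 1) * (k + 1) := by
  have hd : (1 : ℝ) ≤ finrank ℚ K₀ := by exact_mod_cast (finrank_pos : 0 < finrank ℚ K₀)
  obtain ⟨c, hc, hM⟩ := liouville_field K₀ (fun j => ∏ i, x i ^ E j i)
    (fun j => prod_mem fun i _ => pow_mem (hx i) _) hli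
  exact errors_of_meas x E hdown hli _ c (by linarith) hc hM

end Pool.Agent.R473.EC
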