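import Pool.Agent.R473.EC.Main
import Pool.Agent.TH456.TM.Inst

/-!
# The number `π`
-/

set_option autoImplicit false

namespace Pool.Agent.R473.EC

open Polynomial

/-- from the complex to the real measure -/
lemma measR_of (t : ℝ) (h : Pool.Agent.TH456.TM.MeasT (t : ℂ)) : MeasR t := by
  intro D
  obtain ⟨κ, c, hκ, hc, h⟩ := h D
  refine ⟨κ, c, hκ, hc, fun P hP hPD H hH hPH => ?_⟩
  have h1 := h P hP hPD H hH hPH
  have h2 : aeval (t : ℂ) P = ((aeval t P : ℝ) : ℂ) := aeval_algebraMap_apply ℂ t P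
  rwa [h2, Complex.norm_real, Real.norm_eq_abs] at h1

theorem measR_pi : MeasR Real.pi := measR_of _ Pool.Agent.TH456.TM.measT_pi

end Pool.Agent.R473.EC
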